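import Pool.Agent.Helper98.BH.Defs2

/-!
# BH-5a: the fusion lemma (helper16)
-/

set_option autoImplicit false

namespace Pool.Agent.BH

open Set

/-- finitely many dense monotone conditions -/
theorem fusion_refine (Φ : Finset ℕ → Set ℕ → Prop) (hmono : ∀ t A B, B ⊆ A → Φ t A → Φ t B)
    (hdense : ∀ t A, A.Infinite → ∃ B ⊆ A, B.Infinite ∧ Φ t B) (S : Finset (Finset ℕ))
    (A : Set ℕ) (hA : A.Infinite) : ∃ B ⊆ A, B.Infinite ∧ ∀ t ∈ S, Φ t B := by
  classical
  induction S using Finset.induction_on with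
  | empty => exact ⟨A, Subset.rfl, hA, by simp⟩
  | insert t S ht ih =>
    obtain ⟨B, hBA, hB, h⟩ := ih
    obtain ⟨B', hB', hB'i, h'⟩ := hdense t B hB
    refine ⟨B', hB'.trans hBA, hB'i, fun u hu => ?_⟩
    rcases Finset.mem_insert.1 hu with rfl | hu
    · exact h'
    · exact hmono u B B' hB' (h u hu)

/-- the states of the fusion construction -/
def FuSt (Φ : Finset ℕ → Set ℕ → Prop) (A : Set ℕ) : Type :=
  {p : Finset ℕ × Set ℕ // p.2.Infinite ∧ (∀ a ∈ p.1, ∀ b ∈ p.2, a < b) ∧ (∀ t ⊆ p.1, Φ t p.2) ∧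
    p.2 ⊆ A ∧ (p.1 : Set ℕ) ⊆ A}

theorem fusion_step (Φ : Finset ℕ → Set ℕ → Prop) (hmono : ∀ t A B, B ⊆ A → Φ t A → Φ t B)
    (hdense : ∀ t A, A.Infinite → ∃ B ⊆ A, B.Infinite ∧ Φ t B) (A : Set ℕ)
    (p : FuSt Φ A) : ∃ q : FuSt Φ A, ∃ x ∈ p.1.2, q.1.1 = insert x p.1.1 ∧ q.1.2 ⊆ p.1.2 := by
  classical
  obtain ⟨⟨F, B⟩, h1, h2, h3, h4, h5⟩ := p
  simp only at h1 h2 h3 h4 h5
  obtain ⟨x, hx, hmin⟩ : ∃ x ∈ B, ∀ y ∈ B, x ≤ y :=
    ⟨sInf B, Nat.sInf_mem h1.nonempty, fun y hy => Nat.sInf_le hy⟩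
  obtain ⟨B', hB', hB'i, h'⟩ := fusion_refine Φ hmono hdense (insert x F).powerset (B \ {x})
    (h1.sdiff (finite_singleton x))
  have hB'B : B' ⊆ B := hB'.trans sdiff_subset
  refine ⟨⟨(insert x F, B'), hB'i, ?_, ?_, hB'B.trans h4, ?_⟩, x, hx, rfl, hB'B⟩
  · intro a ha b hb
    rcases Finset.mem_insert.1 ha with rfl | ha
    · have h6 := hB' hb
      refine lt_of_le_of_ne (hmin b h6.1) fun h => h6.2 ?_
      rw [h]; rfl
    · exact h2 a ha b (hB'B hb)
  · intro t ht
    exact h' t (Finset.mem_powerset.2 ht)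
  · rw [Finset.coe_insert]
    exact insert_subset (h4 hx) h5

/-- BH-5a -/
theorem fusion (Φ : Finset ℕ → Set ℕ → Prop) (hmono : ∀ t A B, B ⊆ A → Φ t A → Φ t B)
    (hdense : ∀ t A, A.Infinite → ∃ B ⊆ A, B.Infinite ∧ Φ t B) (A : Set ℕ) (hA : A.Infinite) :
    ∃ B ⊆ A, B.Infinite ∧ ∀ t : Finset ℕ, (t : Set ℕ) ⊆ B → Φ t (above t B) := by
  classical
  obtain ⟨A0, hA0, hA0i, hA0'⟩ := hdense ∅ A hA
  let s0 : FuSt Φ A := ⟨(∅, A0), hA0i, by simp, by
    intro t ht
    rw [Finset.subset_empty.1 ht]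
    exact hA0', hA0, by simp⟩
  choose nxt x hx hF hB using fusion_step Φ hmono hdense A
  let st : ℕ → FuSt Φ A := fun n => nxt^[n] s0
  have st_succ : ∀ n, st (n + 1) = nxt (st n) := fun n => Function.iterate_succ_apply' nxt n s0
  set F : ℕ → Finset ℕ := fun n => (st n).1.1 with hFdef
  set G : ℕ → Set ℕ := fun n => (st n).1.2 with hGdef
  have F0 : F 0 = ∅ := rfl
  have Fs : ∀ n, F (n + 1) = insert (x (st n)) (F n) := by
    intro n
    simp only [hFdef, st_succ]
    exact hF (st n)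
  have xG : ∀ n, x (st n) ∈ G n := fun n => hx (st n)
  have Gs : ∀ n, G (n + 1) ⊆ G n := by
    intro n
    simp only [hGdef, st_succ]
    exact hB (st n)
  have Gmono : ∀ n m, n ≤ m → G m ⊆ G n := by
    intro n m h
    induction m, h using Nat.le_induction with
    | base => exact Subset.rfl
    | succ m hm ih => exact (Gs m).trans ih
  have FG : ∀ n, ∀ a ∈ F n, ∀ b ∈ G n, a < b := fun n => (st n).2.2.1
  have FΦ : ∀ n, ∀ t ⊆ F n, Φ t (G n) := fun n => (st n).2.2.2.1
  have FA : ∀ n, (F n : Set ℕ) ⊆ A := fun n => (st n).2.2.2.2.2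
  have Fmono : ∀ n m, n ≤ m → F n ⊆ F m := by
    intro n m h
    induction m, h using Nat.le_induction with
    | base => exact Finset.Subset.refl _
    | succ m hm ih =>
      rw [Fs]
      exact ih.trans (Finset.subset_insert _ _)
  have Fcard : ∀ n, (F n).card = n := by
    intro n
    induction n with
    | zero => rfl
    | succ n ih =>
      rw [Fs, Finset.card_insert_of_notMem, ih]
      intro h
      exact lt_irrefl _ (FG n _ h _ (xG n))
  have Fsub : ∀ n m, n ≤ m → (F m : Set ℕ) ⊆ F n ∪ G n := by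
    intro n m h
    induction m, h using Nat.le_induction with
    | base => exact subset_union_left
    | succ m hm ih =>
      rw [Fs, Finset.coe_insert]
      exact insert_subset (Or.inr (Gmono n m hm (xG m))) ih
  set Bs : Set ℕ := ⋃ n, (F n : Set ℕ) with hBs
  have hBsub : ∀ n, Bs ⊆ F n ∪ G n := by
    intro n b hb
    obtain ⟨m, hm⟩ := mem_iUnion.1 hb
    rcases le_total n m with h | h
    · exact Fsub n m h hm
    · exact Or.inl (Fmono m n h hm)
  refine ⟨Bs, iUnion_subset FA, ?_, ?_⟩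
  · intro hfin
    have h1 : F (hfin.toFinset.card + 1) ⊆ hfin.toFinset := by
      intro a ha
      rw [Set.Finite.mem_toFinset]
      exact mem_iUnion.2 ⟨_, ha⟩
    have h2 := Finset.card_le_card h1
    rw [Fcard] at h2
    omega
  · intro t ht
    have hex : ∃ n, t ⊆ F n := by
      have : ∀ a ∈ t, ∃ n, a ∈ F n := fun a ha => by
        obtain ⟨n, hn⟩ := mem_iUnion.1 (ht ha)
        exact ⟨n, hn⟩
      choose! N hN using this
      refine ⟨t.sup N, fun a ha => Fmono _ _ (Finset.le_sup ha) (hN a ha)⟩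
    set n := Nat.find hex with hn
    have hnt : t ⊆ F n := Nat.find_spec hex
    refine hmono t (G n) _ ?_ (FΦ n t hnt)
    rintro b ⟨hb, hb2⟩
    rcases hBsub n hb with h | h
    · exfalso
      rcases Nat.eq_zero_or_pos n with h0 | h0
      · rw [h0, F0] at h
        simp at h
      · obtain ⟨m, hm⟩ := Nat.exists_eq_succ_of_ne_zero h0.ne'
        have hnot : ¬ t ⊆ F m := Nat.find_min hex (by omega)
        have hxt : x (st m) ∈ t := by
          by_contra hcon
          apply hnot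
          intro a ha
          have h3 := hnt ha
          rw [hm, Nat.succ_eq_add_one, Fs] at h3
          rcases Finset.mem_insert.1 h3 with h4 | h4
          · exact absurd (h4 ▸ ha) hcon
          · exact h4
        have h5 := hb2 _ hxt
        rw [hm, Nat.succ_eq_add_one, Fs] at h
        rcases Finset.mem_insert.1 h with h4 | h4
        · exact lt_irrefl _ (h4 ▸ h5)
        · exact lt_asymm h5 (FG m _ h4 _ (xG m))
    · exact h

end Pool.Agent.BH
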