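import Pool.Agent.Helper98.BH.Defs2

/-!
# BH-5d: the Galvin-Prikry theorem from completely Ramsey sets (helper16)
-/

set_option autoImplicit false

namespace Pool.Agent.BH

open Set MeasureTheory

/-- the sets enumerated by the members of `A` -/
def setsOf (A : Set Inc) : Set (Set ℕ) := {X | ∃ x ∈ A, range x.1 = X}

theorem exists_enum {X : Set ℕ} (hX : X.Infinite) : ∃ x : Inc, range x.1 = X := by
  have h : {n | n ∈ X}.Infinite := hX
  refine ⟨⟨Nat.nth fun n => n ∈ X, Nat.nth_strictMono h⟩, ?_⟩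
  exact Nat.range_nth_of_infinite h

theorem enum_unique {x y : Inc} (h : range x.1 = range y.1) : x = y :=
  Subtype.ext ((StrictMono.range_inj x.2 y.2).1 h)

theorem range_infinite (x : Inc) : (range x.1).Infinite := infinite_range_of_injective x.2.injective

theorem mem_setsOf_range {A : Set Inc} {x : Inc} : range x.1 ∈ setsOf A ↔ x ∈ A := by
  constructor
  · rintro ⟨y, hy, h⟩
    rwa [← enum_unique h]
  · intro h
    exact ⟨x, h, rfl⟩

/-- complete Ramseyness only depends on the infinite members -/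
theorem CR_congr {M N : Set (Set ℕ)} (h : ∀ X : Set ℕ, X.Infinite → (X ∈ M ↔ X ∈ N)) (hM : CR M) :
    CR N := by
  intro s A hA
  obtain ⟨B, hBA, hB, h1⟩ := hM s A hA
  refine ⟨B, hBA, hB, ?_⟩
  rcases h1 with h1 | h1
  · exact Or.inl fun X hX => (h X hX.1).1 (h1 X hX)
  · exact Or.inr fun X hX hN => h1 X hX ((h X hX.1).2 hN)

theorem CR_compl {M : Set (Set ℕ)} (hM : CR M) : CR Mᶜ := by
  intro s A hA
  obtain ⟨B, hBA, hB, h1⟩ := hM s A hA
  refine ⟨B, hBA, hB, ?_⟩
  rcases h1 with h1 | h1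
  · exact Or.inr fun X hX hN => hN (h1 X hX)
  · exact Or.inl fun X hX => h1 X hX

section
variable (CR_open : ∀ D : Finset ℕ → Prop, CR {X | ∃ t, Init t X ∧ D t})
  (CR_iUnion : ∀ M : ℕ → Set (Set ℕ), (∀ i, CR (M i)) → CR (⋃ i, M i))
include CR_open CR_iUnion

/-- the sigma algebra of completely Ramsey sets of sequences -/
@[reducible] def crSpace : MeasurableSpace Inc where
  MeasurableSet' A := CR (setsOf A)
  measurableSet_empty := by
    refine CR_congr (M := {X | ∃ t, Init t X ∧ False}) (fun X _ => ?_) (CR_open fun _ => False)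
    simp [setsOf]
  measurableSet_compl A hA := by
    refine CR_congr (M := (setsOf A)ᶜ) (fun X hX => ?_) (CR_compl hA)
    obtain ⟨x, rfl⟩ := exists_enum hX
    rw [mem_compl_iff, mem_setsOf_range, mem_setsOf_range, mem_compl_iff]
  measurableSet_iUnion M hM := by
    refine CR_congr (M := ⋃ i, setsOf (M i)) (fun X hX => ?_) (CR_iUnion _ hM)
    obtain ⟨x, rfl⟩ := exists_enum hX
    simp only [mem_iUnion, mem_setsOf_range]

omit CR_iUnion in
theorem CR_coord (n v : ℕ) : CR (setsOf {x : Inc | x.1 n = v}) := by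
  classical
  refine CR_congr (M := {X | ∃ t : Finset ℕ, Init t X ∧ (t.card = n + 1 ∧ v ∈ t ∧ ∀ m ∈ t, m ≤ v)})
    (fun X hX => ?_) (CR_open fun t => t.card = n + 1 ∧ v ∈ t ∧ ∀ m ∈ t, m ≤ v)
  obtain ⟨x, rfl⟩ := exists_enum hX
  rw [mem_setsOf_range]
  have hcard : ∀ k, ((Finset.range (k + 1)).image x.1).card = k + 1 := fun k => by
    rw [Finset.card_image_of_injective _ x.2.injective, Finset.card_range]
  constructor
  · rintro ⟨t, ⟨h1, h2⟩, h3, h4, h5⟩
    obtain ⟨k, hk⟩ := h1 h4
    have ht : t = (Finset.range (k + 1)).image x.1 := by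
      ext m
      rw [Finset.mem_image]
      constructor
      · intro hm
        obtain ⟨i, rfl⟩ := h1 hm
        refine ⟨i, Finset.mem_range.2 ?_, rfl⟩
        have := h5 _ hm
        rw [← hk, x.2.le_iff_le] at this
        omega
      · rintro ⟨i, hi, rfl⟩
        by_contra hcon
        have h6 := (h2 ⟨mem_range_self i, hcon⟩).2 v h4
        rw [← hk, x.2.lt_iff_lt] at h6
        have := Finset.mem_range.1 hi
        omega
    rw [ht, hcard] at h3
    have : k = n := by omega
    subst this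
    exact hk
  · intro hx
    have hx : x.1 n = v := hx
    refine ⟨(Finset.range (n + 1)).image x.1, ⟨?_, ?_⟩, hcard n, ?_, ?_⟩
    · intro m hm
      obtain ⟨i, -, rfl⟩ := Finset.mem_image.1 (Finset.mem_coe.1 hm)
      exact mem_range_self i
    · rintro m ⟨⟨i, rfl⟩, hm⟩
      refine ⟨mem_univ _, fun j hj => ?_⟩
      obtain ⟨i', hi', rfl⟩ := Finset.mem_image.1 hj
      rw [x.2.lt_iff_lt]
      by_contra hcon
      apply hm
      rw [Finset.mem_coe, Finset.mem_image]
      refine ⟨i, Finset.mem_range.2 ?_, rfl⟩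
      have := Finset.mem_range.1 hi'
      omega
    · rw [Finset.mem_image]
      exact ⟨n, Finset.mem_range.2 (Nat.lt_succ_self n), hx⟩
    · intro m hm
      obtain ⟨i, hi, rfl⟩ := Finset.mem_image.1 hm
      rw [← hx, x.2.le_iff_le]
      have := Finset.mem_range.1 hi
      omega

theorem gp_measurable {A : Set Inc} (hA : MeasurableSet A) : CR (setsOf A) := by
  have h1 : (inferInstance : MeasurableSpace Inc) ≤ crSpace CR_open CR_iUnion := by
    have h2 : @Measurable Inc (ℕ → ℕ) (crSpace CR_open CR_iUnion) _ Subtype.val := by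
      refine @measurable_pi_lambda Inc ℕ (fun _ => ℕ) (crSpace CR_open CR_iUnion) _ _ fun n => ?_
      refine @measurable_to_countable' ℕ Inc _ _ (crSpace CR_open CR_iUnion) _ fun v => ?_
      exact CR_coord CR_open n v
    exact h2.comap_le
  exact h1 A hA

/-- BH-5d -/
theorem galvin_prikry_of (A : Set Inc) (hA : MeasurableSet A) :
    ∃ H : Inc, (∀ x : Inc, Set.range x.1 ⊆ Set.range H.1 → x ∈ A) ∨
      (∀ x : Inc, Set.range x.1 ⊆ Set.range H.1 → x ∉ A) := by
  obtain ⟨B, -, hB, h⟩ := gp_measurable CR_open CR_iUnion hA ∅ univ infinite_univ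
  obtain ⟨H, hH⟩ := exists_enum hB
  refine ⟨H, ?_⟩
  have key : ∀ x : Inc, range x.1 ⊆ range H.1 → range x.1 ∈ Bas ∅ B := by
    intro x hx
    refine ⟨range_infinite x, by simp, ?_⟩
    rintro m ⟨hm, -⟩
    refine ⟨?_, by simp⟩
    rw [← hH]
    exact hx hm
  rcases h with h | h
  · exact Or.inl fun x hx => mem_setsOf_range.1 (h _ (key x hx))
  · exact Or.inr fun x hx hxA => h _ (key x hx) (mem_setsOf_range.2 hxA)

end

end Pool.Agent.BH
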